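import Pool.Agent.ZPK.StmtsX

/-!
Squad ZPK (MP_6e1a06_nt), row XWI.
-/

set_option autoImplicit false

namespace Pool.Agent.ZPK.H33

open Polynomial Pool.Agent.ZPT Pool.Agent.ZP3

section norms

variable {K : Type} [NormedField K] [IsUltrametricDist K]

theorem nadd {a b : K} {r : ℝ} (ha : ‖a‖ ≤ r) (hb : ‖b‖ ≤ r) : ‖a + b‖ ≤ r :=
  (IsUltrametricDist.norm_add_le_max a b).trans (max_le ha hb)

theorem nsub {a b : K} {r : ℝ} (ha : ‖a‖ ≤ r) (hb : ‖b‖ ≤ r) : ‖a - b‖ ≤ r := by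
  rw [sub_eq_add_neg]
  exact nadd ha (by rw [norm_neg]; exact hb)

theorem nadd' {a b : K} {r : ℝ} (ha : ‖a‖ < r) (hb : ‖b‖ < r) : ‖a + b‖ < r :=
  (IsUltrametricDist.norm_add_le_max a b).trans_lt (max_lt ha hb)

theorem nsub' {a b : K} {r : ℝ} (ha : ‖a‖ < r) (hb : ‖b‖ < r) : ‖a - b‖ < r := by
  rw [sub_eq_add_neg]
  exact nadd' ha (by rw [norm_neg]; exact hb)

omit [IsUltrametricDist K] in
theorem nmul {a b : K} {r : ℝ} (ha : ‖a‖ ≤ 1) (hb : ‖b‖ ≤ r) : ‖a * b‖ ≤ r := by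
  rw [norm_mul]
  calc ‖a‖ * ‖b‖ ≤ 1 * ‖b‖ := mul_le_mul_of_nonneg_right ha (norm_nonneg _)
    _ = ‖b‖ := one_mul _
    _ ≤ r := hb

omit [IsUltrametricDist K] in
theorem nmul' {a b : K} {r : ℝ} (ha : ‖a‖ ≤ 1) (hb : ‖b‖ < r) : ‖a * b‖ < r := by
  rw [norm_mul]
  calc ‖a‖ * ‖b‖ ≤ 1 * ‖b‖ := mul_le_mul_of_nonneg_right ha (norm_nonneg _)
    _ = ‖b‖ := one_mul _
    _ < r := hb

/-- `‖a‖ = ‖b‖` if `‖a - b‖ < ‖b‖`. -/
theorem neq {a b : K} (h : ‖a - b‖ < ‖b‖) : ‖a‖ = ‖b‖ := by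
  apply le_antisymm
  · have := nadd h.le (le_refl ‖b‖)
    rwa [sub_add_cancel] at this
  · by_contra hc
    push Not at hc
    have h1 : ‖a - (a - b)‖ < ‖b‖ := nsub' hc h
    rw [sub_sub_cancel] at h1
    exact lt_irrefl _ h1

omit [IsUltrametricDist K] in
theorem npow {a : K} (ha : ‖a‖ ≤ 1) (n : ℕ) : ‖a ^ n‖ ≤ 1 := by
  rw [norm_pow]; exact pow_le_one₀ (norm_nonneg _) ha

/-- Difference of powers. -/
theorem powsub {a b : K} {r : ℝ} (ha : ‖a‖ ≤ 1) (hb : ‖b‖ ≤ 1) (h : ‖a - b‖ ≤ r) (n : ℕ) :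
    ‖a ^ n - b ^ n‖ ≤ r := by
  have hr : 0 ≤ r := (norm_nonneg _).trans h
  induction n with
  | zero => simpa using hr
  | succ n ih =>
    have e : a ^ (n + 1) - b ^ (n + 1) = a * (a ^ n - b ^ n) + b ^ n * (a - b) := by ring
    rw [e]
    exact nadd (nmul ha ih) (nmul (npow hb n) h)

/-- Truncated binomial expansion. -/
theorem binom4 (hZ : ∀ m : ℤ, ‖(m : K)‖ ≤ 1) {x : K} (hx : ‖x‖ ≤ 1) (m : ℕ) :
    ∃ r : K, ‖r‖ ≤ 1 ∧ (1 + x) ^ m = 1 + (m : K) * x + ((m.choose 2 : ℕ) : K) * x ^ 2 +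
      ((m.choose 3 : ℕ) : K) * x ^ 3 + x ^ 4 * r := by
  induction m with
  | zero => exact ⟨0, by simp, by simp⟩
  | succ m ih =>
    obtain ⟨r, hr, e⟩ := ih
    refine ⟨r * (1 + x) + ((m.choose 3 : ℕ) : K), ?_, ?_⟩
    · refine nadd ?_ ?_
      · rw [mul_comm]
        refine nmul (nadd (by simp) hx) hr
      · have := hZ ((m.choose 3 : ℕ) : ℤ)
        rwa [Int.cast_natCast] at this
    · have e2 : (((m + 1).choose 2 : ℕ) : K) = (m : K) + ((m.choose 2 : ℕ) : K) := by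
        rw [Nat.choose_succ_succ' m 1, Nat.choose_one_right]; push_cast; ring
      have e3 : (((m + 1).choose 3 : ℕ) : K) = ((m.choose 2 : ℕ) : K) + ((m.choose 3 : ℕ) : K) := by
        rw [Nat.choose_succ_succ' m 2]; push_cast; ring
      rw [pow_succ, e, e2, e3]
      push_cast
      ring

end norms

theorem two_choose {K : Type} [Field K] (m : ℕ) :
    2 * ((m.choose 2 : ℕ) : K) = (m : K) * (m : K) - (m : K) := by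
  induction m with
  | zero => simp
  | succ m ih =>
    have e2 : (((m + 1).choose 2 : ℕ) : K) = (m : K) + ((m.choose 2 : ℕ) : K) := by
      rw [Nat.choose_succ_succ' m 1, Nat.choose_one_right]; push_cast; ring
    rw [e2, mul_add, ih]
    push_cast
    ring

theorem six_choose {K : Type} [Field K] (m : ℕ) :
    6 * ((m.choose 3 : ℕ) : K) = (m : K) ^ 3 - 3 * (m : K) ^ 2 + 2 * (m : K) := by
  induction m with
  | zero => simp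
  | succ m ih =>
    have e3 : (((m + 1).choose 3 : ℕ) : K) = ((m.choose 2 : ℕ) : K) + ((m.choose 3 : ℕ) : K) := by
      rw [Nat.choose_succ_succ' m 2]; push_cast; ring
    have h2 := two_choose (K := K) m
    rw [e3, mul_add, ih]
    push_cast
    linear_combination 3 * h2

/-- The algebraic identity. -/
theorem ident {K : Type} [Field K] (a b c d m C₂ C₃ : K) (h2 : 2 * C₂ = m * m - m)
    (h3 : 6 * C₃ = m ^ 3 - 3 * m ^ 2 + 2 * m) (c₁ c₂ c₃ p₂ q₃ : K)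
    (e1 : c₁ = c + m * b - d - m * a)
    (e2 : c₂ = m * b * c + C₂ * b ^ 2 - m * a * d - C₂ * a ^ 2)
    (e3 : c₃ = C₂ * b ^ 2 * c + C₃ * b ^ 3 - C₂ * a ^ 2 * d - C₃ * a ^ 3)
    (ep : p₂ = c₁ * ((c + m * b) + (d + m * a)) - 2 * c₂)
    (eq : q₃ = 6 * c₃ - c₁ * ((c + m * b) ^ 2 + (c + m * b) * (d + m * a) + (d + m * a) ^ 2) +
      3 * (c₁ * (c ^ 2 + m * b ^ 2)) + 3 * ((d + m * a) * p₂)) :
    q₃ - 2 * (b + c + d) * p₂ + 2 * (b * c + b * d + c * d) * c₁ =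
      - (2 * (m * ((a - b) * (a - c) * (a - d)))) := by
  have hp2 : p₂ = c ^ 2 + m * b ^ 2 - d ^ 2 - m * a ^ 2 := by
    rw [ep, e1, e2]
    linear_combination (a ^ 2 - b ^ 2) * h2
  have hq3 : q₃ = 2 * (c ^ 3 + m * b ^ 3 - d ^ 3 - m * a ^ 3) := by
    rw [eq, hp2, e1, e3]
    linear_combination (3 * b ^ 2 * c - 3 * a ^ 2 * d) * h2 + (b ^ 3 - a ^ 3) * h3
  rw [hq3, hp2, e1]
  ring

/-- The core: the four linear forms with a common power relation are impossible. -/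
theorem core {p : ℕ} {K : Type} [NormedField K] [IsUltrametricDist K]
    (hA : ∀ a b : K, Ur p a → Ur p b → Ur p (a + b) ∧ Ur p (a * b) ∧ Ur p (-a) ∧ Ur p (a - b))
    (hZ : ∀ m : ℤ, Ur p (m : K)) (hlt : ∀ a : K, Ur p a → ‖a‖ < 1 → ‖a‖ ≤ (p : ℝ)⁻¹)
    (h2 : ‖(2 : K)‖ = 1) {θ ρ : ℝ} (θ0 : 0 < θ) (hpθ : (p : ℝ)⁻¹ < θ ^ 3) (hρ : ρ < θ ^ 3)
    {a b c d y ξ : K} (ua : Ur p a) (ub : Ur p b) (uc : Ur p c) (ud : Ur p d)
    (hy : θ ≤ ‖y‖) (hy1 : ‖y‖ < 1) (m : ℕ) (hm : ‖(m : K)‖ = 1) (hξ : ‖ξ‖ ≤ 1)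
    (r1 : ‖(1 + a * y) - ξ * (1 + b * y)‖ ≤ ρ) (r2 : ‖(1 + c * y) - ξ ^ m * (1 + d * y)‖ ≤ ρ)
    (hab : ‖a - b‖ = 1) (hac : ‖a - c‖ = 1) (had : ‖a - d‖ = 1) : False := by
  have hadd : ∀ a b : K, Ur p a → Ur p b → Ur p (a + b) := fun a b ha hb => (hA a b ha hb).1
  have hmul : ∀ a b : K, Ur p a → Ur p b → Ur p (a * b) := fun a b ha hb => (hA a b ha hb).2.1
  have hsub : ∀ a b : K, Ur p a → Ur p b → Ur p (a - b) := fun a b ha hb => (hA a b ha hb).2.2.2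
  have hN : ∀ n : ℕ, Ur p (n : K) := fun n => by
    have := hZ (n : ℤ)
    rwa [Int.cast_natCast] at this
  have hZ1 : ∀ m : ℤ, ‖(m : K)‖ ≤ 1 := fun m => (hZ m).1
  have na : ‖a‖ ≤ 1 := ua.1
  have nb : ‖b‖ ≤ 1 := ub.1
  have nc : ‖c‖ ≤ 1 := uc.1
  have nd : ‖d‖ ≤ 1 := ud.1
  have ny : ‖y‖ ≤ 1 := hy1.le
  have n1 : ‖(1 : K)‖ ≤ 1 := by simp
  have nay : ‖a * y‖ ≤ 1 := nmul na ny
  have nby : ‖b * y‖ ≤ 1 := nmul nb ny
  have ncy : ‖c * y‖ ≤ 1 := nmul nc ny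
  have ndy : ‖d * y‖ ≤ 1 := nmul nd ny
  obtain ⟨r, hr, er⟩ := binom4 hZ1 nby m
  obtain ⟨s, hs, es⟩ := binom4 hZ1 nay m
  obtain ⟨C₂, hC₂⟩ : ∃ C₂ : K, C₂ = ((m.choose 2 : ℕ) : K) := ⟨_, rfl⟩
  obtain ⟨C₃, hC₃⟩ : ∃ C₃ : K, C₃ = ((m.choose 3 : ℕ) : K) := ⟨_, rfl⟩
  obtain ⟨M, hM⟩ : ∃ M : K, M = (m : K) := ⟨_, rfl⟩
  have t2 : 2 * C₂ = M * M - M := by rw [hC₂, hM]; exact two_choose m
  have t3 : 6 * C₃ = M ^ 3 - 3 * M ^ 2 + 2 * M := by rw [hC₃, hM]; exact six_choose m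
  have uM : Ur p M := hM ▸ hN m
  have u2 : Ur p C₂ := hC₂ ▸ hN _
  have u3 : Ur p C₃ := hC₃ ▸ hN _
  rw [← hC₂, ← hC₃, ← hM] at er es
  rw [← hM] at hm
  obtain ⟨F, hF⟩ : ∃ F : K, F = (1 + c * y) * (1 + b * y) ^ m - (1 + d * y) * (1 + a * y) ^ m :=
    ⟨_, rfl⟩
  have nF : ‖F‖ ≤ ρ := by
    have e : F = (1 + b * y) ^ m * ((1 + c * y) - ξ ^ m * (1 + d * y)) -
        (1 + d * y) * ((1 + a * y) ^ m - (ξ * (1 + b * y)) ^ m) := by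
      rw [hF, mul_pow]; ring
    rw [e]
    exact nsub (nmul (npow (nadd n1 nby) m) r2)
      (nmul (nadd n1 ndy) (powsub (nadd n1 nay) (nmul hξ (nadd n1 nby)) r1 m))
  obtain ⟨c₁, e1⟩ : ∃ c₁ : K, c₁ = c + M * b - d - M * a := ⟨_, rfl⟩
  obtain ⟨c₂, e2⟩ : ∃ c₂ : K, c₂ = M * b * c + C₂ * b ^ 2 - M * a * d - C₂ * a ^ 2 := ⟨_, rfl⟩
  obtain ⟨c₃, e3⟩ : ∃ c₃ : K, c₃ = C₂ * b ^ 2 * c + C₃ * b ^ 3 - C₂ * a ^ 2 * d - C₃ * a ^ 3 :=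
    ⟨_, rfl⟩
  obtain ⟨R, hR⟩ : ∃ R : K, R = c * (C₃ * b ^ 3) + (1 + c * y) * (b ^ 4 * r) -
    (d * (C₃ * a ^ 3) + (1 + d * y) * (a ^ 4 * s)) := ⟨_, rfl⟩
  have nR : ‖R‖ ≤ 1 := by
    rw [hR]
    exact nsub (nadd (nmul nc (nmul u3.1 (npow nb 3)))
        (nmul (nadd n1 ncy) (nmul (npow nb 4) hr)))
      (nadd (nmul nd (nmul u3.1 (npow na 3)))
        (nmul (nadd n1 ndy) (nmul (npow na 4) hs)))
  have eF : F = c₁ * y + c₂ * y ^ 2 + c₃ * y ^ 3 + y ^ 4 * R := by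
    rw [hF, er, es, e1, e2, e3, hR]; ring
  have upow : ∀ (z : K) (n : ℕ), Ur p z → Ur p (z ^ n) := by
    intro z n hz
    induction n with
    | zero =>
      rw [pow_zero]
      have := hN 1
      rwa [Nat.cast_one] at this
    | succ n ih => rw [pow_succ]; exact hmul _ _ ih hz
  have uc1 : Ur p c₁ := by
    rw [e1]
    exact hsub _ _ (hsub _ _ (hadd _ _ uc (hmul _ _ uM ub)) ud) (hmul _ _ uM ua)
  have uc2 : Ur p c₂ := by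
    rw [e2]
    exact hsub _ _ (hsub _ _ (hadd _ _ (hmul _ _ (hmul _ _ uM ub) uc) (hmul _ _ u2 (upow _ 2 ub)))
      (hmul _ _ (hmul _ _ uM ua) ud)) (hmul _ _ u2 (upow _ 2 ua))
  have uc3 : Ur p c₃ := by
    rw [e3]
    exact hsub _ _ (hsub _ _ (hadd _ _ (hmul _ _ (hmul _ _ u2 (upow _ 2 ub)) uc)
      (hmul _ _ u3 (upow _ 3 ub))) (hmul _ _ (hmul _ _ u2 (upow _ 2 ua)) ud))
      (hmul _ _ u3 (upow _ 3 ua))
  -- sizes
  have y0 : 0 < ‖y‖ := θ0.trans_le hy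
  have hT3 : θ ^ 3 ≤ ‖y‖ ^ 3 := pow_le_pow_left₀ θ0.le hy 3
  have hF3 : ‖F‖ < ‖y‖ ^ 3 := (nF.trans_lt hρ).trans_le hT3
  have hp3 : (p : ℝ)⁻¹ < ‖y‖ ^ 3 := hpθ.trans_le hT3
  have k32 : ‖y‖ ^ 3 < ‖y‖ ^ 2 := by
    have := mul_lt_mul_of_pos_left hy1 (pow_pos y0 2)
    rwa [mul_one, ← pow_succ] at this
  have k21 : ‖y‖ ^ 2 < ‖y‖ := by
    have := mul_lt_mul_of_pos_left hy1 y0
    rwa [mul_one, ← pow_two] at this
  have k43 : ‖y‖ ^ 4 < ‖y‖ ^ 3 := by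
    have := mul_lt_mul_of_pos_left hy1 (pow_pos y0 3)
    rwa [mul_one, ← pow_succ] at this
  have hp0 : (0 : ℝ) ≤ (p : ℝ)⁻¹ := inv_nonneg.mpr (Nat.cast_nonneg p)
  have lt1 : ∀ (z : K) (n : ℕ), ‖z * y ^ n‖ < ‖y‖ ^ n → ‖z‖ < 1 := by
    intro z n h
    rw [norm_mul, norm_pow] at h
    by_contra hc
    push Not at hc
    exact absurd h (not_lt.mpr (by
      calc ‖y‖ ^ n = 1 * ‖y‖ ^ n := (one_mul _).symm
        _ ≤ ‖z‖ * ‖y‖ ^ n := mul_le_mul_of_nonneg_right hc (pow_nonneg (norm_nonneg _) _)))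
  have s1 : ‖c₁‖ < 1 := by
    apply lt1 c₁ 1
    rw [pow_one, pow_one]
    have e : c₁ * y = F - y ^ 2 * (c₂ + c₃ * y + y ^ 2 * R) := by rw [eF]; ring
    rw [e]
    refine nsub' (hF3.trans (k32.trans k21)) ?_
    rw [mul_comm]
    refine nmul' ?_ (by rw [norm_pow]; exact k21)
    exact nadd (nadd uc2.1 (nmul uc3.1 ny)) (nmul (npow ny 2) nR)
  have s1' : ‖c₁ * y‖ < ‖y‖ ^ 3 := by
    rw [mul_comm]
    exact nmul' ny ((hlt _ uc1 s1).trans_lt hp3)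
  have s2 : ‖c₂‖ < 1 := by
    apply lt1 c₂ 2
    have e : c₂ * y ^ 2 = F - c₁ * y - y ^ 3 * (c₃ + y * R) := by rw [eF]; ring
    rw [e]
    refine nsub' (nsub' (hF3.trans k32) (s1'.trans k32)) ?_
    rw [mul_comm]
    refine nmul' ?_ (by rw [norm_pow]; exact k32)
    exact nadd uc3.1 (nmul ny nR)
  have s2' : ‖c₂ * y ^ 2‖ < ‖y‖ ^ 3 := by
    rw [mul_comm]
    exact nmul' (npow ny 2) ((hlt _ uc2 s2).trans_lt hp3)
  have s3 : ‖c₃‖ < 1 := by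
    apply lt1 c₃ 3
    have e : c₃ * y ^ 3 = F - c₁ * y - c₂ * y ^ 2 - y ^ 4 * R := by rw [eF]; ring
    rw [e]
    refine nsub' (nsub' (nsub' hF3 s1') s2') ?_
    rw [mul_comm]
    exact nmul' nR (by rw [norm_pow]; exact k43)
  -- the contradiction
  have nM : ‖M‖ ≤ 1 := uM.1
  have nat1 : ∀ n : ℕ, ‖(n : K)‖ ≤ 1 := fun n => (hN n).1
  have n2 : ‖(2 : K)‖ ≤ 1 := h2.le
  have n3 : ‖(3 : K)‖ ≤ 1 := by have := nat1 3; rwa [Nat.cast_ofNat] at this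
  have n6 : ‖(6 : K)‖ ≤ 1 := by have := nat1 6; rwa [Nat.cast_ofNat] at this
  obtain ⟨p₂, ep⟩ : ∃ p₂ : K, p₂ = c₁ * ((c + M * b) + (d + M * a)) - 2 * c₂ := ⟨_, rfl⟩
  obtain ⟨q₃, eq⟩ : ∃ q₃ : K, q₃ = 6 * c₃ - c₁ * ((c + M * b) ^ 2 + (c + M * b) * (d + M * a) +
      (d + M * a) ^ 2) + 3 * (c₁ * (c ^ 2 + M * b ^ 2)) + 3 * ((d + M * a) * p₂) := ⟨_, rfl⟩
  have id := ident a b c d M C₂ C₃ t2 t3 c₁ c₂ c₃ p₂ q₃ e1 e2 e3 ep eq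
  have ncb : ‖c + M * b‖ ≤ 1 := nadd nc (nmul nM nb)
  have nda : ‖d + M * a‖ ≤ 1 := nadd nd (nmul nM na)
  have l2 : ‖p₂‖ < 1 := by
    rw [ep]
    refine nsub' ?_ (nmul' n2 s2)
    rw [mul_comm]
    exact nmul' (nadd ncb nda) s1
  have l3 : ‖q₃‖ < 1 := by
    rw [eq]
    refine nadd' (nadd' (nsub' (nmul' n6 s3) ?_) (nmul' n3 ?_)) (nmul' n3 (nmul' nda l2))
    · rw [mul_comm]
      exact nmul' (nadd (nadd (npow ncb 2) (nmul ncb nda)) (npow nda 2)) s1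
    · rw [mul_comm]
      exact nmul' (nadd (npow nc 2) (nmul nM (npow nb 2))) s1
  have l4 : ‖q₃ - 2 * (b + c + d) * p₂ + 2 * (b * c + b * d + c * d) * c₁‖ < 1 :=
    nadd' (nsub' l3 (nmul' (nmul n2 (nadd (nadd nb nc) nd)) l2))
      (nmul' (nmul n2 (nadd (nadd (nmul nb nc) (nmul nb nd)) (nmul nc nd))) s1)
  rw [id, norm_neg, norm_mul, norm_mul, norm_mul, norm_mul, h2, hm, hab, hac, had] at l4
  norm_num at l4

section aux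

variable {K : Type} [NormedField K] [IsUltrametricDist K]

theorem unit1 {a y : K} (ha : ‖a‖ ≤ 1) (hy : ‖y‖ < 1) : ‖1 + a * y‖ = 1 := by
  have h : ‖(1 + a * y) - 1‖ < ‖(1 : K)‖ := by
    rw [add_sub_cancel_left, norm_one]
    exact nmul' ha hy
  rw [neq h, norm_one]

/-- Comparison of the two normalised forms. -/
theorem compare {L L' l l' c c' y κ κ' x ξ : K} {σ : ℝ} (hL : ‖L‖ = 1) (hκ : ‖κ‖ = 1)
    (hc : ‖c'‖ ≤ 1) (hy : ‖y‖ < 1) (hξ : ‖ξ‖ ≤ 1)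
    (e : l = L * (1 + c * y)) (e' : l' = L' * (1 + c' * y)) (h1 : ‖κ * L - x * κ' * L'‖ ≤ σ)
    (h2 : ‖κ * l - x * ξ * κ' * l'‖ ≤ σ) : ‖(1 + c * y) - ξ * (1 + c' * y)‖ ≤ σ := by
  have e3 : κ * L * ((1 + c * y) - ξ * (1 + c' * y)) =
      (κ * l - x * ξ * κ' * l') - ξ * (1 + c' * y) * (κ * L - x * κ' * L') := by
    rw [e, e']; ring
  have h3 : ‖κ * L * ((1 + c * y) - ξ * (1 + c' * y))‖ ≤ σ := by
    rw [e3]
    exact nsub h2 (nmul (nmul hξ (unit1 hc hy).le) h1)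
  rwa [norm_mul, norm_mul, hκ, hL, one_mul, one_mul] at h3

/-- The size of `y`. -/
theorem sizey {a b y ξ : K} {σ θ : ℝ} (hR : ξ ≠ 1 → θ ≤ ‖ξ - 1‖) (hσ : σ < θ)
    (hb : ‖b‖ ≤ 1) (hab : ‖a - b‖ = 1) (hy : ‖y‖ < 1)
    (h : ‖(1 + a * y) - ξ * (1 + b * y)‖ ≤ σ) :
    (ξ = 1 ∧ ‖y‖ ≤ σ) ∨ (ξ ≠ 1 ∧ ‖ξ - 1‖ = ‖y‖ ∧ θ ≤ ‖y‖) := by
  by_cases hx : ξ = 1
  · left
    refine ⟨hx, ?_⟩
    have e : (1 + a * y) - ξ * (1 + b * y) = (a - b) * y := by rw [hx]; ring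
    rw [e, norm_mul, hab, one_mul] at h
    exact h
  · right
    have h1 := hR hx
    have e : (1 + a * y) - ξ * (1 + b * y) = (a - b) * y - (ξ - 1) * (1 + b * y) := by ring
    have n2 : ‖(ξ - 1) * (1 + b * y)‖ = ‖ξ - 1‖ := by rw [norm_mul, unit1 hb hy, mul_one]
    rw [e] at h
    have h3 : ‖(a - b) * y - (ξ - 1) * (1 + b * y)‖ < ‖(ξ - 1) * (1 + b * y)‖ := by
      rw [n2]; exact (h.trans_lt hσ).trans_le h1
    have h4 := neq h3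
    rw [n2, norm_mul, hab, one_mul] at h4
    exact ⟨hx, h4.symm, h4 ▸ h1⟩

end aux

theorem xwi (hURR : ZP3.URRStmt) (hURT : ZP3.URTStmt) (hTHB : ZP3.THBStmt) (hSPL : ZP3.SPLStmt)
    (_ : ZP3.WTMStmt) (hWWN : ZP3.WWNStmt) (_ : ZP3.ROUStmt) : XwiStmt := by
  intro p hp hp7 K _ _ _ hE G₁ G₂ G₃ G₄ B₁ B₂ B₃ B₄ κ₁ κ₂ κ₃ κ₄ N₁ N₂ N₃ N₄ w ρ hρ
    uG1 uG2 uG3 uG4 uB1 uB2 uB3 uB4 hk1 hk2 hk3 hk4 hw hl1 hl2 hl3 hl4 hN1 hN2 hN3 hN4 hz hz'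
    d12 d13 d14 d34
  obtain ⟨hA, -, hZ, hlt, hinv⟩ := hURR p hp K hE
  obtain ⟨hT, -⟩ := hURT p hp K hE
  obtain ⟨-, th0, th1, hpth, -⟩ := hTHB p hp (by omega)
  have hadd : ∀ a b : K, Ur p a → Ur p b → Ur p (a + b) := fun a b ha hb => (hA a b ha hb).1
  have hmul : ∀ a b : K, Ur p a → Ur p b → Ur p (a * b) := fun a b ha hb => (hA a b ha hb).2.1
  have hsub : ∀ a b : K, Ur p a → Ur p b → Ur p (a - b) := fun a b ha hb => (hA a b ha hb).2.2.2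
  obtain ⟨x, ξ, ez, tx, hξ⟩ := hSPL p hp K _ hz
  obtain ⟨x', ξ', ez', tx', hξ'⟩ := hSPL p hp K _ hz'
  have ux := hT x tx
  have ux' := hT x' tx'
  -- sizes of the wild parts
  have wild : ∀ v : K, (v = 1 ∨ ∃ k : ℕ, 1 ≤ k ∧ IsPrimitiveRoot v (p ^ k)) →
      ‖v - 1‖ < 1 ∧ ‖v‖ = 1 ∧ (v ≠ 1 → th p ≤ ‖v - 1‖) := by
    intro v hv
    have h1 : ‖v - 1‖ < 1 ∧ (v ≠ 1 → th p ≤ ‖v - 1‖) := by
      rcases hv with rfl | ⟨k, hk, hprim⟩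
      · exact ⟨by simp, fun h => absurd rfl h⟩
      · obtain ⟨-, h2, h3, -⟩ := hWWN p hp (by omega) K hE k v hk hprim
        exact ⟨h3, fun _ => h2⟩
    refine ⟨h1.1, ?_, h1.2⟩
    have : ‖v - 1‖ < ‖(1 : K)‖ := by rw [norm_one]; exact h1.1
    rw [neq this, norm_one]
  obtain ⟨wx1, wx2, wx3⟩ := wild ξ hξ
  obtain ⟨wx1', wx2', wx3'⟩ := wild ξ' hξ'
  have th3 : th p ^ 3 ≤ th p := by
    calc th p ^ 3 = th p * th p ^ 2 := by ring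
      _ ≤ th p * 1 := mul_le_mul_of_nonneg_left (pow_le_one₀ th0.le th1.le) th0.le
      _ = th p := mul_one _
  have hρ1 : ρ < 1 := (hρ.trans_le th3).trans th1
  -- norms of the N
  have nN : ∀ N l : K, ‖l‖ = 1 → ‖N - l‖ ≤ ρ → ‖N‖ = 1 := by
    intro N l h1 h2
    have : ‖N - l‖ < ‖l‖ := by rw [h1]; exact h2.trans_lt hρ1
    rw [neq this, h1]
  have nN1 := nN _ _ hl1 hN1
  have nN2 := nN _ _ hl2 hN2
  have nN3 := nN _ _ hl3 hN3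
  have nN4 := nN _ _ hl4 hN4
  have ne0 : ∀ z : K, ‖z‖ = 1 → z ≠ 0 := by
    intro z h h0
    rw [h0, norm_zero] at h
    exact zero_ne_one h
  have E1 : κ₁ * N₁ = x * ξ * (κ₂ * N₂) := by
    rw [← ez]
    field_simp [ne0 _ hk2.2, ne0 _ nN2]
  have E2 : κ₃ * N₃ = x' * ξ' * (κ₄ * N₄) := by
    rw [← ez']
    field_simp [ne0 _ hk4.2, ne0 _ nN4]
  have R1 : ‖κ₁ * (G₁ + B₁ * w) - x * ξ * κ₂ * (G₂ + B₂ * w)‖ ≤ ρ := by
    have e : κ₁ * (G₁ + B₁ * w) - x * ξ * κ₂ * (G₂ + B₂ * w) =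
        x * ξ * κ₂ * (N₂ - (G₂ + B₂ * w)) - κ₁ * (N₁ - (G₁ + B₁ * w)) := by
      linear_combination E1
    rw [e]
    exact nsub (nmul (nmul (nmul ux.2.le wx2.le) hk2.2.le) hN2) (nmul hk1.2.le hN1)
  have R2 : ‖κ₃ * (G₃ + B₃ * w) - x' * ξ' * κ₄ * (G₄ + B₄ * w)‖ ≤ ρ := by
    have e : κ₃ * (G₃ + B₃ * w) - x' * ξ' * κ₄ * (G₄ + B₄ * w) =
        x' * ξ' * κ₄ * (N₄ - (G₄ + B₄ * w)) - κ₃ * (N₃ - (G₃ + B₃ * w)) := by
      linear_combination E2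
    rw [e]
    exact nsub (nmul (nmul (nmul ux'.2.le wx2'.le) hk4.2.le) hN4) (nmul hk3.2.le hN3)
  -- the point w₀
  obtain ⟨D, hD⟩ : ∃ D : K, D = κ₁ * B₁ - x * κ₂ * B₂ := ⟨_, rfl⟩
  obtain ⟨E, hEE⟩ : ∃ E : K, E = x * κ₂ * G₂ - κ₁ * G₁ := ⟨_, rfl⟩
  have uD : Ur p D := by
    rw [hD]
    exact hsub _ _ (hmul _ _ hk1.1 uB1) (hmul _ _ (hmul _ _ ux.1 hk2.1) uB2)
  have uE : Ur p E := by
    rw [hEE]
    exact hsub _ _ (hmul _ _ (hmul _ _ ux.1 hk2.1) uG2) (hmul _ _ hk1.1 uG1)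
  have hDE : ‖D * w - E‖ < 1 := by
    have e : D * w - E = (κ₁ * (G₁ + B₁ * w) - x * ξ * κ₂ * (G₂ + B₂ * w)) +
        x * κ₂ * (G₂ + B₂ * w) * (ξ - 1) := by rw [hD, hEE]; ring
    rw [e]
    exact nadd' (R1.trans_lt hρ1) (nmul' (nmul (nmul ux.2.le hk2.2.le) hl2.le) wx1)
  have nD : ‖D‖ = 1 := by
    refine le_antisymm uD.1 ?_
    by_contra hc
    push Not at hc
    have hE1 : ‖E‖ < 1 := by
      have e : E = w * D - (D * w - E) := by ring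
      rw [e]
      exact nsub' (nmul' hw hc) hDE
    have h1 : ‖κ₁ * (G₁ * B₂ - G₂ * B₁)‖ < 1 := by
      have e : κ₁ * (G₁ * B₂ - G₂ * B₁) = - (B₂ * E) - G₂ * D := by rw [hD, hEE]; ring
      rw [e]
      refine nsub' ?_ (nmul' uG2.1 hc)
      rw [norm_neg]
      exact nmul' uB2.1 hE1
    rw [norm_mul, hk1.2, d12, one_mul] at h1
    exact lt_irrefl _ h1
  have D0 := ne0 _ nD
  have UD : Uu p D := ⟨uD, nD⟩
  obtain ⟨w₀, hw₀⟩ : ∃ w₀ : K, w₀ = E * D⁻¹ := ⟨_, rfl⟩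
  have uw : Ur p w₀ := by rw [hw₀]; exact hmul _ _ uE (hinv _ UD).1
  obtain ⟨y, hyy⟩ : ∃ y : K, y = w - w₀ := ⟨_, rfl⟩
  have ny : ‖y‖ < 1 := by
    have e : D * y = D * w - E := by rw [hyy, hw₀]; field_simp
    rw [← e, norm_mul, nD, one_mul] at hDE
    exact hDE
  have exact1 : κ₁ * (G₁ + B₁ * w₀) = x * κ₂ * (G₂ + B₂ * w₀) := by
    have e : D * w₀ = E := by rw [hw₀]; field_simp
    rw [hD, hEE] at e
    linear_combination e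
  -- the four forms at w₀
  have form : ∀ G B : K, Ur p G → Ur p B → ‖G + B * w‖ = 1 → Uu p (G + B * w₀) := by
    intro G B uG uB hl
    refine ⟨hadd _ _ uG (hmul _ _ uB uw), ?_⟩
    have : ‖(G + B * w₀) - (G + B * w)‖ < ‖G + B * w‖ := by
      rw [hl]
      have e : (G + B * w₀) - (G + B * w) = - (B * y) := by rw [hyy]; ring
      rw [e, norm_neg]
      exact nmul' uB.1 ny
    rw [neq this, hl]
  have U1 := form _ _ uG1 uB1 hl1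
  have U2 := form _ _ uG2 uB2 hl2
  have U3 := form _ _ uG3 uB3 hl3
  have U4 := form _ _ uG4 uB4 hl4
  have ulam : ∀ G B : K, Ur p B → Uu p (G + B * w₀) → Ur p (B * (G + B * w₀)⁻¹) :=
    fun G B uB U => hmul _ _ uB (hinv _ U).1
  have ul1 := ulam _ _ uB1 U1
  have ul2 := ulam _ _ uB2 U2
  have ul3 := ulam _ _ uB3 U3
  have ul4 := ulam _ _ uB4 U4
  have dlam : ∀ G B G' B' : K, Uu p (G + B * w₀) → Uu p (G' + B' * w₀) →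
      ‖G * B' - G' * B‖ = 1 → ‖B * (G + B * w₀)⁻¹ - B' * (G' + B' * w₀)⁻¹‖ = 1 := by
    intro G B G' B' U U' h
    have e : B * (G + B * w₀)⁻¹ - B' * (G' + B' * w₀)⁻¹ =
        - (G * B' - G' * B) * ((G + B * w₀)⁻¹ * (G' + B' * w₀)⁻¹) := by
      have h1 := mul_inv_cancel₀ (ne0 _ U.2)
      have h2 := mul_inv_cancel₀ (ne0 _ U'.2)
      linear_combination (-(B * (G + B * w₀)⁻¹)) * h2 + (B' * (G' + B' * w₀)⁻¹) * h1
    rw [e, norm_mul, norm_neg, h, norm_mul, norm_inv, norm_inv, U.2, U'.2]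
    norm_num
  have el : ∀ G B : K, Uu p (G + B * w₀) →
      G + B * w = (G + B * w₀) * (1 + (B * (G + B * w₀)⁻¹) * y) := by
    intro G B U
    have h1 := ne0 _ U.2
    have e2 : (G + B * w₀) * (1 + (B * (G + B * w₀)⁻¹) * y) =
        (G + B * w₀) + B * y * ((G + B * w₀) * (G + B * w₀)⁻¹) := by ring
    rw [e2, mul_inv_cancel₀ h1, hyy]
    ring
  obtain ⟨σ, hσ⟩ : ∃ σ : ℝ, σ = max ρ (p : ℝ)⁻¹ := ⟨_, rfl⟩
  have hρσ : ρ ≤ σ := hσ ▸ le_max_left _ _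
  have hpσ : (p : ℝ)⁻¹ ≤ σ := hσ ▸ le_max_right _ _
  have hσ3 : σ < th p ^ 3 := hσ ▸ max_lt hρ hpth
  have hσ1 : σ < th p := hσ3.trans_le th3
  have σ0 : 0 ≤ σ := (inv_nonneg.mpr (Nat.cast_nonneg p)).trans hpσ
  have C1 := compare (L := G₁ + B₁ * w₀) (L' := G₂ + B₂ * w₀) (κ := κ₁) (κ' := κ₂) (x := x)
    (ξ := ξ) (σ := σ) U1.2 hk1.2 ul2.1 ny wx2.le (el _ _ U1) (el _ _ U2)
    (by rw [exact1, sub_self, norm_zero]; exact σ0) (R1.trans hρσ)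
  have P2 : ‖κ₃ * (G₃ + B₃ * w₀) - x' * κ₄ * (G₄ + B₄ * w₀)‖ ≤ σ := by
    refine (hlt _ ?_ ?_).trans hpσ
    · exact hsub _ _ (hmul _ _ hk3.1 U3.1) (hmul _ _ (hmul _ _ ux'.1 hk4.1) U4.1)
    · have e : κ₃ * (G₃ + B₃ * w₀) - x' * κ₄ * (G₄ + B₄ * w₀) =
          (κ₃ * (G₃ + B₃ * w) - x' * ξ' * κ₄ * (G₄ + B₄ * w)) +
          x' * κ₄ * (G₄ + B₄ * w) * (ξ' - 1) - (κ₃ * B₃ - x' * κ₄ * B₄) * y := by
        rw [hyy]; ring
      rw [e]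
      exact nsub' (nadd' (R2.trans_lt hρ1) (nmul' (nmul (nmul ux'.2.le hk4.2.le) hl4.le) wx1'))
        (nmul' (nsub (nmul hk3.2.le uB3.1) (nmul (nmul ux'.2.le hk4.2.le) uB4.1)) ny)
  have C2 := compare (L := G₃ + B₃ * w₀) (L' := G₄ + B₄ * w₀) (κ := κ₃) (κ' := κ₄) (x := x')
    (ξ := ξ') (σ := σ) U3.2 hk3.2 ul4.1 ny wx2'.le (el _ _ U3) (el _ _ U4) P2 (R2.trans hρσ)
  have S1 := sizey wx3 hσ1 ul2.1 (dlam _ _ _ _ U1 U2 d12) ny C1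
  have S2 := sizey wx3' hσ1 ul4.1 (dlam _ _ _ _ U3 U4 d34) ny C2
  rcases S1 with ⟨h1, h1'⟩ | ⟨h1, h1', h1''⟩
  · rcases S2 with ⟨h2, -⟩ | ⟨-, -, h2''⟩
    · rw [ez, ez', h1, h2, mul_one, mul_one]
      exact ⟨tx, tx'⟩
    · exact absurd (h2''.trans h1') (not_le.mpr hσ1)
  · rcases S2 with ⟨-, h2'⟩ | ⟨h2, h2', -⟩
    · exact absurd (h1''.trans h2') (not_le.mpr hσ1)
    · exfalso
      obtain ⟨k, hk, pk⟩ := hξ.resolve_left h1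
      obtain ⟨k', hk', pk'⟩ := hξ'.resolve_left h2
      have y0 : 0 < ‖y‖ := th0.trans_le h1''
      have q1 := (hWWN p hp (by omega) K hE k ξ hk pk).1
      have q2 := (hWWN p hp (by omega) K hE k' ξ' hk' pk').1
      rw [h1'] at q1
      rw [h2', ← q1] at q2
      have q3 := pow_right_injective₀ y0 ny.ne q2
      have q4 : p ^ (k' - 1) = p ^ (k - 1) := Nat.eq_of_mul_eq_mul_right (by have := hp.two_le; omega) q3
      have q5 : k' - 1 = k - 1 := Nat.pow_right_injective hp.two_le q4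
      have q6 : k' = k := by omega
      rw [q6] at pk'
      have : NeZero (p ^ k) := ⟨(pow_pos hp.pos k).ne'⟩
      obtain ⟨i, -, hi⟩ := pk.eq_pow_of_pow_eq_one pk'.pow_eq_one
      rw [← hi] at pk'
      have q7 : i.Coprime (p ^ k) := (pk.pow_iff_coprime (pow_pos hp.pos k) i).mp pk'
      have q8 : ¬ p ∣ i := by
        have q9 := (Nat.coprime_pow_right_iff hk i p).mp q7
        exact fun h => (hp.coprime_iff_not_dvd.mp q9.symm) h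
      have : Fact p.Prime := ⟨hp⟩
      have nat1 : ∀ n : ℕ, ¬ p ∣ n → ‖(n : K)‖ = 1 := by
        intro n hn
        have := hE (n : ℚ)
        rw [Rat.cast_natCast, (padicNorm.nat_eq_one_iff n).mpr hn] at this
        simpa using this
      have n2 : ‖(2 : K)‖ = 1 := by
        have := nat1 2 (fun h => by have := Nat.le_of_dvd (by norm_num) h; omega)
        rwa [Nat.cast_ofNat] at this
      rw [← hi] at C2
      exact core hA hZ hlt n2 th0 hpth hσ3 ul1 ul2 ul3 ul4 h1'' ny i (nat1 i q8) wx2.le C1 C2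
        (dlam _ _ _ _ U1 U2 d12) (dlam _ _ _ _ U1 U3 d13) (dlam _ _ _ _ U1 U4 d14)

end Pool.Agent.ZPK.H33
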