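import Pool.Agent.ZPK.StmtsR2
import Pool.Agent.Helper33_ZPK.XWI

/-!
Squad ZPK (MP_6e1a06_nt), row UPP: no solutions near the upper end.
-/

set_option autoImplicit false

namespace Pool.Agent.ZPK.H33

open Polynomial Pool.Agent.ZPT Pool.Agent.ZP3

section

variable {K : Type} [NormedField K]

theorem norm_p [CharZero K] {p : ℕ} (hp : p.Prime) (hE : Ext p K) : ‖(p : K)‖ = (p : ℝ)⁻¹ := by
  have h := hE (p : ℚ)
  have h1 : padicNorm p (p : ℚ) = (p : ℚ)⁻¹ := padicNorm.padicNorm_p hp.one_lt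
  rw [h1] at h
  simpa using h

theorem fi2 {n : ℕ} {S : Set (Fin n)} {lam : Fin n → K} (h : FI S lam) {j l : Fin n}
    (hj : j ∈ S) (hl : l ∈ S) (hjl : j ≠ l) {c1 c2 d1 d2 : ℤ} (h1 : |c1| ≤ 2) (h2 : |c2| ≤ 2)
    (h3 : |d1| ≤ 2) (h4 : |d2| ≤ 2) (h5 : c1 * d2 ≠ c2 * d1) (m : ℤ) :
    ‖((c1 - m * d1 : ℤ) : K) * lam j + ((c2 - m * d2 : ℤ) : K) * lam l‖ = 1 := by
  classical
  have key := h (fun i => if i = j then c1 else if i = l then c2 else 0)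
    (fun i => if i = j then d1 else if i = l then d2 else 0) ?_ ?_ m
  · rw [Finset.sum_eq_add j l hjl] at key
    · simp only [if_true, if_neg hjl.symm] at key
      exact key
    · rintro x - ⟨hx1, hx2⟩
      simp [hx1, hx2]
    · intro hx
      exact absurd (Finset.mem_univ _) hx
    · intro hx
      exact absurd (Finset.mem_univ _) hx
  · intro i
    refine ⟨?_, ?_, ?_⟩
    · split_ifs
      · exact h1
      · exact h2
      · norm_num
    · split_ifs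
      · exact h3
      · exact h4
      · norm_num
    · intro hi
      have hij : i ≠ j := fun h => hi (h ▸ hj)
      have hil : i ≠ l := fun h => hi (h ▸ hl)
      simp [hij, hil]
  · refine ⟨j, l, ?_⟩
    simp only [if_true, if_neg hjl.symm]
    exact h5

theorem fi_sub {n : ℕ} {S : Set (Fin n)} {lam : Fin n → K} (h : FI S lam) {j l : Fin n}
    (hj : j ∈ S) (hl : l ∈ S) (hjl : j ≠ l) : ‖lam j - lam l‖ = 1 := by
  have := fi2 h hj hl hjl (c1 := 1) (c2 := -1) (d1 := 1) (d2 := 0) (by norm_num) (by norm_num)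
    (by norm_num) (by norm_num) (by norm_num) 0
  simpa [sub_eq_add_neg] using this

theorem fi_line {n : ℕ} {S : Set (Fin n)} {lam : Fin n → K} (h : FI S lam) {j l : Fin n}
    (hj : j ∈ S) (hl : l ∈ S) (hjl : j ≠ l) (m : ℤ) : ‖lam l + m * (lam j - lam l)‖ = 1 := by
  have := fi2 h hj hl hjl (c1 := 0) (c2 := 1) (d1 := -1) (d2 := 1) (by norm_num) (by norm_num)
    (by norm_num) (by norm_num) (by norm_num) m
  have e : ((0 - m * (-1) : ℤ) : K) * lam j + ((1 - m * 1 : ℤ) : K) * lam l =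
      lam l + m * (lam j - lam l) := by
    push_cast
    ring
  rwa [e] at this

end

/-- Lowest terms. -/
theorem lowest (x : ℚ) (h0 : 0 < x) (h1 : x < 1) : ∃ A B : ℕ, 1 ≤ B ∧ B < A ∧ Nat.Coprime A B ∧
    (B : ℚ) = x * A := by
  have hnum : 0 < x.num := Rat.num_pos.mpr h0
  have hB : ((x.num.toNat : ℕ) : ℤ) = x.num := Int.toNat_of_nonneg hnum.le
  have hden : 0 < x.den := x.den_pos
  have hq : ((x.num.toNat : ℕ) : ℚ) = x * x.den := by
    rw [Rat.mul_den_eq_num]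
    exact_mod_cast congrArg (fun z : ℤ => (z : ℚ)) hB
  refine ⟨x.den, x.num.toNat, by omega, ?_, ?_, hq⟩
  · have h2 : ((x.num.toNat : ℕ) : ℚ) < (x.den : ℚ) := by
      rw [hq]
      have : (0 : ℚ) < x.den := by exact_mod_cast hden
      nlinarith
    exact_mod_cast h2
  · have h3 := x.reduced
    have h4 : x.num.natAbs = x.num.toNat := by omega
    rw [h4] at h3
    exact h3.symm

theorem upp (hURR : ZP3.URRStmt) (hTHB : ZP3.THBStmt) (hMTH : ZP3.MTHStmt) (_ : LgbStmt)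
    (hUNV : UnvStmt) (hNUM : NumStmt) (hRLA : RlaStmt) (hRNS : RnsStmt) (hRPX : RpxStmt)
    (hLGL : LglStmt) (hMAI : MaiStmt) (hUPE : UpeStmt) (hUPA : UpaStmt) (hUPF : UpfStmt)
    (hMIS : MisStmt) : UppStmt := by
  intro U hU p E hp hE hpE K _ _ _ _ _ hX Log hLog L hL n e A g hCd heE hFo hGen i j k l hik hjl
    hi hk hj hlj t q ht0 hLi hLk hSj hAt hDij hDkl
  by_contra hcon
  have hw : th p ^ 2 ≤ ‖(p : K) / t ^ e j‖ := not_lt.mp hcon
  -- numbers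
  have hEp : E < p := by nlinarith
  have hp11 : 11 ≤ p := by nlinarith
  have hp5 : 5 ≤ p := by omega
  have hep : ∀ u, e u < p := fun u => (heE u).trans_lt hEp
  have np : ‖(p : K)‖ = (p : ℝ)⁻¹ := norm_p hp hX
  have p0R : (0 : ℝ) < (p : ℝ) := by exact_mod_cast hp.pos
  have p1R : (1 : ℝ) < (p : ℝ) := by exact_mod_cast hp.one_lt
  have pi0 : (0 : ℝ) < (p : ℝ)⁻¹ := inv_pos.mpr p0R
  have pi1 : (p : ℝ)⁻¹ < 1 := inv_lt_one_of_one_lt₀ p1R
  have pK0 : (p : K) ≠ 0 := Nat.cast_ne_zero.mpr hp.ne_zero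
  have t0 : t ≠ 0 := norm_pos_iff.mp ht0
  have ht1 : ‖t‖ < 1 := by
    by_contra h
    push Not at h
    have := one_le_pow₀ h (n := e i)
    exact absurd (hLi.trans pi1) (not_lt.mpr this)
  obtain ⟨-, th0, th1, -, -⟩ := hTHB p hp hp5
  obtain ⟨nu1, nu2, nu3, nu4⟩ := hNUM p E hp hE hpE
  have th20 : th p ^ 20 ≤ th p ^ 3 := pow_le_pow_of_le_one th0.le th1.le (by norm_num)
  have th202 : th p ^ 20 ≤ th p ^ 2 := pow_le_pow_of_le_one th0.le th1.le (by norm_num)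
  have rh3 : rh p E < th p ^ 3 := nu3.trans_le th20
  have rh2 : rh p E < th p ^ 2 := nu3.trans_le th202
  have rh1 : rh p E < 1 := rh2.trans_le (pow_le_one₀ th0.le th1.le)
  have nw : ‖(p : K) / t ^ e j‖ = (p : ℝ)⁻¹ / ‖t‖ ^ e j := by rw [norm_div, norm_pow, np]
  obtain ⟨-, -, nu5⟩ := nu4 ‖t‖ (e j) ht0 ht1 hj (heE j)
  obtain ⟨htr, nu6⟩ := nu5 (nw ▸ hw)
  have hw1 : ‖(p : K) / t ^ e j‖ < 1 := by
    rw [nw, div_lt_one (pow_pos ht0 _)]
    exact hSj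
  -- exponents
  have hlt : ∀ u, La p (e u) t → e j < e u := by
    intro u hu
    by_contra h
    push Not at h
    have h1 : ‖t‖ ^ e j ≤ ‖t‖ ^ e u := pow_le_pow_of_le_one ht0.le ht1.le h
    exact absurd (hSj.trans_le h1) (not_lt.mpr hu.le)
  have hji := hlt i hLi
  have hjk := hlt k hLk
  have hSl : Sm p (e l) t := hSj.trans_le (pow_le_pow_of_le_one ht0.le ht1.le hlj)
  have nti : ∀ u, e j < e u → ‖t ^ e u / (p : K)‖ ≤ rh p E := by
    intro u hu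
    rw [norm_div, norm_pow, np, div_inv_eq_mul]
    exact nu6 (e u) hu
  -- memberships
  have hAti := hAt i (by simp)
  have hAtj := hAt j (by simp)
  have hAtk := hAt k (by simp)
  have hAtl := hAt l (by simp)
  obtain ⟨un1, -⟩ := hUNV p hp K hX L hL
  obtain ⟨-, -, -, -, hinvU⟩ := hURR p hp K hX
  have ai1 : ‖A i 0‖ = 1 := (hCd i).A0 hi
  have ak1 : ‖A k 0‖ = 1 := (hCd k).A0 hk
  have aj1 : ‖A j 0‖ = 1 := (hCd j).A0 hj
  have ne0 : ∀ z : K, ‖z‖ = 1 → z ≠ 0 := by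
    intro z h h0
    rw [h0, norm_zero] at h
    exact zero_ne_one h
  have uai : Uu p (A i 0) := ⟨un1 _ ((hCd i).An 0) ai1.le, ai1⟩
  have uak : Uu p (A k 0) := ⟨un1 _ ((hCd k).An 0) ak1.le, ak1⟩
  have ug : ∀ u, Uu p (g u) := fun u => ⟨un1 _ (hCd u).gL (hCd u).g1.le, (hCd u).g1⟩
  -- radial pairs
  obtain ⟨s, Rij⟩ := hRPX U hU p hp hp5 K hX Log hLog L hL (e i) (e j) (A i) (A j) (g i) (g j)
    (hCd i) (hCd j) hi t (q i) (q j) ht0 hLi hSj hAti hAtj hDij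
  obtain ⟨s', Rkl⟩ := hRPX U hU p hp hp5 K hX Log hLog L hL (e k) (e l) (A k) (A l) (g k) (g l)
    (hCd k) (hCd l) hk t (q k) (q l) ht0 hLk hSl hAtk hAtl hDkl
  have hss : s' = s := by
    have h1 := Rkl.tn.symm.trans Rij.tn
    have h2 : (-(s' : ℝ)) = (-(s : ℝ)) := by
      have := congrArg Real.log h1
      rw [Real.log_rpow p0R, Real.log_rpow p0R] at this
      exact mul_right_cancel₀ (Real.log_pos p1R).ne' this
    have h3 : (s' : ℝ) = (s : ℝ) := neg_injective h2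
    exact_mod_cast h3
  rw [hss] at Rkl
  obtain ⟨Fi, hFi⟩ : ∃ F : K, F = t ^ e i * (q i)⁻¹ / A i 0 := ⟨_, rfl⟩
  obtain ⟨Fk, hFk⟩ : ∃ F : K, F = t ^ e k * (q k)⁻¹ / A k 0 := ⟨_, rfl⟩
  obtain ⟨nj, hnj⟩ : ∃ F : K, F = (p : K) * (q j)⁻¹ := ⟨_, rfl⟩
  obtain ⟨nl, hnl⟩ : ∃ F : K, F = (p : K) * (q l)⁻¹ := ⟨_, rfl⟩
  rw [← hFi, ← hnj] at Rij
  rw [← hFk, ← hnl] at Rkl
  -- large coordinates
  have large : ∀ u, 1 ≤ e u → La p (e u) t → At p U (e u) (A u) (g u) t (q u) →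
      ‖t ^ e u * (q u)⁻¹ / A u 0 - 1‖ ≤ rh p E ∧
      ∃ c : ℕ → K, (∀ r, c r ∈ L) ∧ ‖t ^ e u * (q u)⁻¹ / A u 0 -
        ∑ r ∈ Finset.range (E + 1), c r * t ^ r‖ ≤ rh p E * (p : ℝ)⁻¹ := by
    intro u hu hLu hAu
    have au1 : ‖A u 0‖ = 1 := (hCd u).A0 hu
    have au0 := ne0 _ au1
    obtain ⟨-, hN⟩ := hRLA U hU p hp hp5 K hX L (e u) (A u) (g u) (hCd u) hu t (q u) ht0 ht1 hLu hAu
    have hju := hlt u hLu
    have hgA : ‖g u / A u 0‖ = 1 := by rw [norm_div, (hCd u).g1, au1, div_one]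
    refine ⟨?_, ?_⟩
    · have h1 := hN 1 le_rfl
      have h2 : ∑ r ∈ Finset.range 1, A u r / A u 0 * t ^ r = 1 := by
        rw [Finset.sum_range_one, pow_zero, mul_one, div_self au0]
      rw [h2] at h1
      have h3 : max (‖t‖ ^ 1) (‖t‖ ^ e u) ≤ rh p E := by
        refine max_le (by rw [pow_one]; exact htr) ?_
        calc ‖t‖ ^ e u ≤ ‖t‖ ^ 1 := pow_le_pow_of_le_one ht0.le ht1.le hu
          _ = ‖t‖ := pow_one _
          _ ≤ _ := htr
      have h4 : ‖g u / A u 0 * (t ^ e u / (p : K))‖ ≤ rh p E := by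
        rw [norm_mul, hgA, one_mul]
        exact nti u hju
      have h5 := nadd (h1.trans h3) h4
      have e5 : t ^ e u * (q u)⁻¹ / A u 0 - (1 + g u / A u 0 * (t ^ e u / (p : K))) +
          g u / A u 0 * (t ^ e u / (p : K)) = t ^ e u * (q u)⁻¹ / A u 0 - 1 := by ring
      rwa [e5] at h5
    · refine ⟨fun r => if r < e u then A u r / A u 0 else if r = e u then g u / A u 0 / p else 0,
        ?_, ?_⟩
      · intro r
        dsimp only
        split_ifs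
        · exact L.div_mem ((hCd u).An r) ((hCd u).An 0)
        · exact L.div_mem (L.div_mem (hCd u).gL ((hCd u).An 0)) (natCast_mem L p)
        · exact L.zero_mem
      · have h1 := hN (e u) hu
        rw [max_self] at h1
        have h2 : ∑ r ∈ Finset.range (E + 1), (if r < e u then A u r / A u 0 else
            if r = e u then g u / A u 0 / p else 0) * t ^ r =
            ∑ r ∈ Finset.range (e u), A u r / A u 0 * t ^ r +
              g u / A u 0 * (t ^ e u / (p : K)) := by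
          have hs : Finset.range (e u + 1) ⊆ Finset.range (E + 1) :=
            Finset.range_subset_range.mpr (by have := heE u; omega)
          rw [← Finset.sum_subset hs, Finset.sum_range_succ]
          · congr 1
            · refine Finset.sum_congr rfl fun r hr => ?_
              rw [if_pos (Finset.mem_range.mp hr)]
            · rw [if_neg (lt_irrefl _), if_pos rfl]
              ring
          · intro r _ hr
            rw [Finset.mem_range, not_lt] at hr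
            rw [if_neg (by omega), if_neg (by omega), zero_mul]
        rw [h2]
        refine h1.trans ?_
        have h3 := nti u hju
        rw [norm_div, norm_pow, np, div_inv_eq_mul] at h3
        calc ‖t‖ ^ e u = ‖t‖ ^ e u * p * (p : ℝ)⁻¹ := by
              rw [mul_assoc, mul_inv_cancel₀ p0R.ne', mul_one]
          _ ≤ _ := mul_le_mul_of_nonneg_right h3 pi0.le
  obtain ⟨hFi1, ci, hciL, hci⟩ := large i hi hLi hAti
  obtain ⟨hFk1, ck, hckL, hck⟩ := large k hk hLk hAtk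
  rw [← hFi] at hFi1 hci
  rw [← hFk] at hFk1 hck
  -- small coordinates
  obtain ⟨l₁, hl₁⟩ : ∃ F : K, F = lS (e j) (e j) (A j) (g j) := ⟨_, rfl⟩
  obtain ⟨l₂, hl₂⟩ : ∃ F : K, F = lS (e j) (e l) (A l) (g l) := ⟨_, rfl⟩
  obtain ⟨w, hwd⟩ : ∃ F : K, F = (p : K) / t ^ e j := ⟨_, rfl⟩
  have hsm : ∀ u, e u ≤ e j → At p U (e u) (A u) (g u) t (q u) →
      ‖(p : K) * (q u)⁻¹ - g u * (1 + lS (e j) (e u) (A u) (g u) * ((p : K) / t ^ e j))‖ ≤ rh p E := by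
    intro u hu hAu
    have h1 := (hRNS U hU p hp hp5 K hX L (e j) (e u) (A u) (g u) (hCd u) hj hu t (q u) ht0 ht1 hSj
      hAu).2
    refine h1.trans ?_
    calc ‖t‖ * ‖(p : K) / t ^ e j‖ ≤ ‖t‖ * 1 := mul_le_mul_of_nonneg_left hw1.le ht0.le
      _ = ‖t‖ := mul_one _
      _ ≤ _ := htr
  have hnj1 := hsm j le_rfl hAtj
  have hnl1 := hsm l hlj hAtl
  rw [← hnj, ← hl₁] at hnj1
  rw [← hnl, ← hl₂] at hnl1
  have hl₁' : l₁ = A j 0 / g j := by rw [hl₁]; unfold lS; rw [if_pos rfl]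
  have l1L : l₁ ∈ L := by rw [hl₁']; exact L.div_mem ((hCd j).An 0) (hCd j).gL
  have l1n : ‖l₁‖ = 1 := by rw [hl₁', norm_div, aj1, (hCd j).g1, div_one]
  have l2cases : (e l ≠ e j ∧ l₂ = 0) ∨ (e l = e j ∧ l₂ = A l 0 / g l) := by
    by_cases h : e l = e j
    · right
      refine ⟨h, ?_⟩
      rw [hl₂]; unfold lS; rw [if_pos h]
    · left
      refine ⟨h, ?_⟩
      rw [hl₂]; unfold lS; rw [if_neg h]
  have l2L : l₂ ∈ L := by
    rcases l2cases with ⟨-, h⟩ | ⟨-, h⟩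
    · rw [h]; exact L.zero_mem
    · rw [h]; exact L.div_mem ((hCd l).An 0) (hCd l).gL
  have l2n : ‖l₂‖ ≤ 1 := by
    rcases l2cases with ⟨-, h⟩ | ⟨-, h⟩
    · rw [h, norm_zero]; exact zero_le_one
    · rw [h, norm_div, (hCd l).g1, div_one]; exact (hCd l).An1 0
  have hl12 : ‖l₁ - l₂‖ = 1 := by
    rcases l2cases with ⟨-, h⟩ | ⟨h0, h⟩
    · rw [h, sub_zero, l1n]
    · rw [hl₁', h]
      exact fi_sub (hGen.zero (e j) hj) (show j ∈ {u | e u = e j} from rfl)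
        (show l ∈ {u | e u = e j} from h0) hjl
  have hl120 := ne0 _ hl12
  obtain ⟨r, hr⟩ : ∃ F : K, F = -l₂ / (l₁ - l₂) := ⟨_, rfl⟩
  obtain ⟨y, hy⟩ : ∃ F : K, F = (l₁ - l₂) * w / (1 + l₂ * w) := ⟨_, rfl⟩
  have hrc : r = 0 ∨ (‖r‖ ≤ 1 ∧ ∀ m : ℤ, ‖r - m‖ = 1) := by
    rcases l2cases with ⟨-, h⟩ | ⟨h0, h⟩
    · left
      rw [hr, h, neg_zero, zero_div]
    · right
      refine ⟨by rw [hr, norm_div, norm_neg, hl12, div_one]; exact l2n, fun m => ?_⟩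
      have h1 : ‖l₂ + m * (l₁ - l₂)‖ = 1 := by
        rw [hl₁', h]
        exact fi_line (hGen.zero (e j) hj) (show j ∈ {u | e u = e j} from rfl)
          (show l ∈ {u | e u = e j} from h0) hjl m
      have h2 : r - m = -(l₂ + m * (l₁ - l₂)) / (l₁ - l₂) := by
        rw [hr]; field_simp; ring
      rw [h2, norm_div, norm_neg, h1, hl12, div_one]
  -- the exponent
  have s0 := Rij.s0
  have htn := Rij.tn
  have hjq : (0 : ℚ) < (e j : ℚ) := by exact_mod_cast hj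
  have hx1 : (e j : ℚ) * s < 1 := by
    have h1 : (p : ℝ) ^ (-(1 : ℝ)) < (p : ℝ) ^ (-((e j : ℝ) * (s : ℝ))) := by
      have h2 : (p : ℝ)⁻¹ < ‖t‖ ^ e j := hSj
      rw [htn, ← Real.rpow_natCast, ← Real.rpow_mul p0R.le] at h2
      rw [Real.rpow_neg_one]
      have e1 : -(s : ℝ) * (e j : ℝ) = -((e j : ℝ) * (s : ℝ)) := by ring
      rwa [e1] at h2
    have h2 := (Real.rpow_lt_rpow_left_iff p1R).mp h1
    have h3 : ((e j : ℝ) * (s : ℝ)) < 1 := by linarith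
    exact_mod_cast h3
  obtain ⟨P, Q, hQ1, hQP, hcop, hQ⟩ := lowest ((e j : ℚ) * s) (mul_pos hjq s0) hx1
  have hP1 : 1 ≤ P := by omega
  -- UPE
  have hwd' : w = (p : K) / t ^ e j := hwd
  rw [← hwd] at hw hw1 hnj1 hnl1
  obtain ⟨ue1, ue2, ue3, ue4⟩ := hUPE p hp hp11 K hX Log hLog s (e j) (e i) (e k) P Q t w y r
    (A i 0) (A k 0) Fi Fk nj nl (g j) (g l) l₁ l₂ (rh p E) hj (hep j) hi (hep i) hk (hep k) uai uak
    (ug j) (ug l) (un1 _ l1L l1n.le) (un1 _ l2L l2n) hl12 nu1 rh3 hwd' hw hw1 hFi1 hFk1 hnj1 hnl1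
    Rij.lg Rkl.lg hP1 hQ hy hr
  obtain ⟨T, hT⟩ : ∃ F : K, F = (Log (A i 0) + Log Fi) / (e i : K) -
    (Log (A k 0) + Log Fk) / (e k : K) := ⟨_, rfl⟩
  rw [← hT] at ue3 ue4
  -- the norm of y
  have hyA : ‖y‖ ^ P = ((p : ℝ)⁻¹) ^ (P - Q) := by
    have h1 : (‖t‖ ^ e j) ^ P = ((p : ℝ)⁻¹) ^ Q := by
      rw [htn, ← Real.rpow_natCast, ← Real.rpow_natCast, ← Real.rpow_mul p0R.le,
        ← Real.rpow_mul p0R.le, ← Real.rpow_natCast, ← Real.rpow_neg_one, ← Real.rpow_mul p0R.le]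
      congr 1
      have h2 : ((Q : ℚ) : ℝ) = (((e j : ℚ) * s * P : ℚ) : ℝ) := by rw [hQ]
      push_cast at h2
      rw [h2]
      ring
    rw [ue1, hwd, nw, div_pow, h1]
    rw [div_eq_iff (pow_pos pi0 _).ne', ← pow_add]
    congr 1
    omega
  -- UPA
  obtain ⟨hpQ, j', uj1, uj2, uj3⟩ := hUPA p hp hp11 K hX Log hLog P Q (e j) y r T (rh p E) hQ1 hQP
    hcop hj (hep j) (ue1.symm ▸ hw) (ue1.symm ▸ hw1) hyA hrc nu2.le rh3 ue2 ue3 ue4
  -- MAI
  obtain ⟨e₀, he₀⟩ : ∃ m, m = min (e i) (e k) := ⟨_, rfl⟩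
  have he01 : 1 ≤ e₀ := by rw [he₀]; exact le_min hi hk
  have he0E : e₀ ≤ E := by rw [he₀]; exact (min_le_left _ _).trans (heE i)
  have hL12 : ‖lL e₀ (e i) (A i) (g i) - lL e₀ (e k) (A k) (g k)‖ = 1 := by
    have ngi : ‖g i / A i 0‖ = 1 := by rw [norm_div, (hCd i).g1, ai1, div_one]
    have ngk : ‖g k / A k 0‖ = 1 := by rw [norm_div, (hCd k).g1, ak1, div_one]
    unfold lL
    rcases lt_trichotomy (e i) (e k) with h | h | h
    · rw [if_pos (by omega), if_neg (by omega), sub_zero, ngi]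
    · rw [if_pos (by omega), if_pos (by omega)]
      exact fi_sub (hGen.infty (e i) hi) (show i ∈ {u | e u = e i} from rfl)
        (show k ∈ {u | e u = e i} from h.symm) hik
    · rw [if_neg (by omega), if_pos (by omega), zero_sub, norm_neg, ngk]
  obtain ⟨m, H, τ, hH, hτ, hM⟩ := hMAI U hU p E hp hE hpE K hX Log hLog L hL e₀ (e i) (e k)
    (A i) (A k) (g i) (g k) (hCd i) (hCd k) he01 (heE i) (heE k) he₀ hL12 (hFo i k hi hk)
  have hLa0 : La p e₀ t ∧ ‖t ^ e₀ / (p : K)‖ ≤ rh p E := by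
    rcases min_choice (e i) (e k) with h | h
    · rw [he₀, h]; exact ⟨hLi, nti i hji⟩
    · rw [he₀, h]; exact ⟨hLk, nti k hjk⟩
  have hM2 := hM t (q i) (q k) ht0 hLa0.1 (hLa0.2.trans rh2.le) hAti hAtk
  rw [← hFi, ← hFk] at hM2
  -- kappa
  obtain ⟨κ, hκ⟩ : ∃ F : K, F = Log (A i 0) / (e i : K) - Log (A k 0) / (e k : K) := ⟨_, rfl⟩
  have hκ2 : ∃ N : ℕ, κ = 0 ∨ ‖κ‖ = ((p : ℝ)⁻¹) ^ N := by
    rcases (hLGL p hp hp5 K hX Log hLog L hL).2 (A i 0) ((hCd i).An 0) (A k 0) ((hCd k).An 0)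
      ai1 ak1 (e i) (e k) hi hk (hep i) (hep k) with h | ⟨N, -, h⟩
    · exact ⟨0, Or.inl (hκ.trans h)⟩
    · exact ⟨N, Or.inr (by rw [hκ]; exact h)⟩
  obtain ⟨N, hN⟩ := hκ2
  have hTk : T - κ = Log Fi / (e i : K) - Log Fk / (e k : K) := by
    rw [hT, hκ]; ring
  rw [← hTk] at hM2
  have hμ : max (max ‖t‖ ‖t ^ e₀ / (p : K)‖) ((p : ℝ)⁻¹) < 1 :=
    max_lt (max_lt ht1 (hLa0.2.trans_lt rh1)) pi1
  obtain ⟨hm1, hm2, β, hβ, hβs⟩ := hUPF p E hp hE hpE K hX s P Q e₀ (e j) m j' N t y T κ H τ _ s0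
    htn hj (heE j) he01 he0E hP1 hcop hQ hLa0.1 hSj (hwd ▸ hw) (by rw [ue1, hwd]) hτ hH hN hμ hM2
    hpQ uj2 uj3
  -- the roots
  have hroot : ∀ (a : ℕ) (F : K), 1 ≤ a → a < p → ‖F - 1‖ ≤ rh p E →
      ∃ G : K, G ^ a = F ^ m ∧ ‖G - 1‖ < 1 := by
    intro a F ha hap hF
    have hF1 : ‖F‖ ≤ 1 := by
      have h1 := nadd (hF.trans rh1.le) (show ‖(1 : K)‖ ≤ 1 by rw [norm_one])
      rwa [sub_add_cancel] at h1
    have hdv : ¬ p ∣ a := fun h => absurd (Nat.le_of_dvd ha h) (not_le.mpr hap)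
    obtain ⟨G, hG1, hG2⟩ := hMTH p hp K hX a (F ^ m) 1 (rh p E) ha hdv one_ne_zero rh1 (by
      rw [one_pow, norm_one, mul_one]
      have := powsub hF1 (show ‖(1 : K)‖ ≤ 1 by rw [norm_one]) hF m
      rwa [one_pow] at this)
    rw [norm_one, mul_one] at hG2
    exact ⟨G, hG1, hG2.trans_lt rh1⟩
  obtain ⟨G₁, hG1, hG1'⟩ := hroot (e i) Fi hi (hep i) hFi1
  obtain ⟨G₂, hG2, hG2'⟩ := hroot (e k) Fk hk (hep k) hFk1
  refine hMIS p E hp hE hpE K hX Log hLog L hL s (e i) (e k) (e j) m β t (A i 0) (A k 0) Fi Fk nj nl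
    (g j) (g l) l₁ l₂ G₁ G₂ ci ck hciL hckL hci hck ?_
  exact
    { he₁ := ⟨hi, heE i⟩
      he₂ := ⟨hk, heE k⟩
      he' := ⟨hj, heE j⟩
      hm := ⟨hm1, (hm2.trans_le he0E).le⟩
      hb := hβ
      hs := hβs
      hL := ⟨(hCd i).An 0, (hCd k).An 0, (hCd j).gL, (hCd l).gL, l1L, l2L⟩
      h1 := ⟨ai1, ak1, (hCd j).g1, (hCd l).g1, l1n.le, l2n, hl12⟩
      r₁ := Rij
      r₂ := Rkl
      hF := ⟨hFi1, hFk1⟩
      hn := ⟨hwd ▸ hnj1, hwd ▸ hnl1⟩
      hw := ⟨hwd ▸ hw, hwd ▸ hw1⟩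
      hG := ⟨hG1', hG2', hG1, hG2⟩ }

end Pool.Agent.ZPK.H33
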