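import Pool.Agent.ZPK.StmtsF

/-!
Squad ZPK (MP_6e1a06_nt), row UUQ: uniqueness of `U`.
-/

set_option autoImplicit false

namespace Pool.Agent.ZPK.H33

open Polynomial Pool.Agent.ZPT Pool.Agent.ZP3

theorem ee_real {t : ℝ} (h0 : 0 < t) :
    ee (((-Real.log t / (2 * Real.pi) : ℝ) : ℂ) * Complex.I) = (t : ℂ) := by
  unfold ee
  have hpi : (Real.pi : ℂ) ≠ 0 := Complex.ofReal_ne_zero.mpr Real.pi_ne_zero
  have e : 2 * (Real.pi : ℂ) * Complex.I * (((-Real.log t / (2 * Real.pi) : ℝ) : ℂ) * Complex.I) =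
      ((Real.log t : ℝ) : ℂ) := by
    push_cast
    field_simp
    rw [Complex.I_sq]
    ring
  rw [e, ← Complex.ofReal_exp, Real.exp_log h0]

theorem series_eq (U : PowerSeries ℚ) (hU : IsU U) {t : ℝ} (h0 : 0 < t) (h1 : t < 1) :
    (((∑' n : ℕ, ((PowerSeries.coeff n U : ℚ) : ℝ) * t ^ n : ℝ)) : ℂ) =
      (t : ℂ) * J (((-Real.log t / (2 * Real.pi) : ℝ) : ℂ) * Complex.I) := by
  have him : 0 < ((((-Real.log t / (2 * Real.pi) : ℝ) : ℂ) * Complex.I)).im := by
    rw [Complex.im_ofReal_mul, Complex.I_im, mul_one]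
    have := Real.log_neg h0 h1
    have h3 := Real.pi_pos
    exact div_pos (by linarith) (by linarith)
  have h2 := hU.jJ _ him
  rw [ee_real h0] at h2
  unfold jv at h2
  have ht : (t : ℂ) ≠ 0 := Complex.ofReal_ne_zero.mpr h0.ne'
  rw [div_eq_iff ht] at h2
  rw [mul_comm, ← h2, Complex.ofReal_tsum]
  refine tsum_congr fun n => ?_
  push_cast
  rfl

theorem coeffs_zero (a : ℕ → ℝ) (hs : ∀ ρ : ℝ, 0 ≤ ρ → ρ < 1 → Summable fun n => |a n| * ρ ^ n)
    (hz : ∀ t : ℝ, 0 < t → t < 1 → ∑' n, a n * t ^ n = 0) : ∀ n, a n = 0 := by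
  have hsum : ∀ t : ℝ, 0 ≤ t → t < 1 → Summable fun n => a n * t ^ n := by
    intro t h0 h1
    refine Summable.of_norm ?_
    have := hs t h0 h1
    simpa [abs_mul, abs_of_nonneg h0] using this
  intro n
  induction n using Nat.strong_induction_on with
  | _ n ih =>
    -- the tail
    have h1 : ∀ t : ℝ, 0 < t → t < 1 → a n + t * ∑' i, a (i + (n + 1)) * t ^ i = 0 := by
      intro t h0 h1
      have h2 := (hsum t h0.le h1).sum_add_tsum_nat_add (n + 1)
      rw [hz t h0 h1, Finset.sum_range_succ, Finset.sum_eq_zero (fun i hi => by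
        rw [ih i (Finset.mem_range.mp hi), zero_mul]), zero_add] at h2
      have h3 : ∑' i, a (i + (n + 1)) * t ^ (i + (n + 1)) =
          t ^ n * (t * ∑' i, a (i + (n + 1)) * t ^ i) := by
        rw [← tsum_mul_left, ← tsum_mul_left]
        refine tsum_congr fun i => ?_
        ring
      rw [h3] at h2
      have h4 : t ^ n * (a n + t * ∑' i, a (i + (n + 1)) * t ^ i) = 0 := by
        rw [mul_add, ← h2]; ring
      exact (mul_eq_zero.mp h4).resolve_left (pow_pos h0 n).ne'
    -- the bound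
    have hB : Summable fun i => |a (i + (n + 1))| * (1 / 2 : ℝ) ^ i := by
      have := (summable_nat_add_iff (n + 1)).mpr (hs (1 / 2) (by norm_num) (by norm_num))
      have h5 := this.mul_left ((2 : ℝ) ^ (n + 1))
      refine h5.congr fun i => ?_
      rw [pow_add]
      have : (2 : ℝ) ^ (n + 1) * (1 / 2 : ℝ) ^ (n + 1) = 1 := by
        rw [← mul_pow]; norm_num
      linear_combination (|a (i + (n + 1))| * (1 / 2 : ℝ) ^ i) * this
    obtain ⟨B, hBd⟩ : ∃ B : ℝ, B = ∑' i, |a (i + (n + 1))| * (1 / 2 : ℝ) ^ i := ⟨_, rfl⟩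
    have hB0 : 0 ≤ B := by rw [hBd]; exact tsum_nonneg fun i => by positivity
    have h6 : ∀ t : ℝ, 0 < t → t < 1 / 2 → |a n| ≤ t * B := by
      intro t h0 h2
      have h3 := h1 t h0 (by linarith)
      have h4 : |∑' i, a (i + (n + 1)) * t ^ i| ≤ B := by
        rw [hBd]
        have h7 : ∀ i, ‖a (i + (n + 1)) * t ^ i‖ ≤ |a (i + (n + 1))| * (1 / 2 : ℝ) ^ i := by
          intro i
          rw [Real.norm_eq_abs, abs_mul, abs_of_pos (pow_pos h0 i)]
          gcongr
        have h8 := tsum_of_norm_bounded hB.hasSum h7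
        rwa [Real.norm_eq_abs] at h8
      have h5 : a n = -(t * ∑' i, a (i + (n + 1)) * t ^ i) := by linarith
      rw [h5, abs_neg, abs_mul, abs_of_pos h0]
      exact mul_le_mul_of_nonneg_left h4 h0.le
    by_contra hne
    have hpos : 0 < |a n| := abs_pos.mpr hne
    have h9 := h6 (min (1 / 4) (|a n| / (2 * (B + 1)))) (lt_min (by norm_num) (by positivity))
      ((min_le_left _ _).trans_lt (by norm_num))
    have h10 : min (1 / 4) (|a n| / (2 * (B + 1))) * B ≤ |a n| / (2 * (B + 1)) * B :=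
      mul_le_mul_of_nonneg_right (min_le_right _ _) hB0
    have h11 : |a n| / (2 * (B + 1)) * B < |a n| := by
      rw [div_mul_eq_mul_div, div_lt_iff₀ (by positivity)]
      nlinarith
    linarith

theorem uuq : UuqStmt := by
  intro U U' hU hU'
  have key := coeffs_zero
    (fun n => ((PowerSeries.coeff n U : ℚ) : ℝ) - ((PowerSeries.coeff n U' : ℚ) : ℝ)) ?_ ?_
  · ext n
    have := key n
    have h2 : ((PowerSeries.coeff n U : ℚ) : ℝ) = ((PowerSeries.coeff n U' : ℚ) : ℝ) :=
      sub_eq_zero.mp this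
    exact_mod_cast h2
  · intro ρ h0 h1
    refine Summable.of_nonneg_of_le (fun n => by positivity) (fun n => ?_)
      ((hU.sm ρ h0 h1).add (hU'.sm ρ h0 h1))
    rw [← add_mul]
    exact mul_le_mul_of_nonneg_right (abs_sub _ _) (pow_nonneg h0 n)
  · intro t h0 h1
    have s1 : Summable fun n : ℕ => ((PowerSeries.coeff n U : ℚ) : ℝ) * t ^ n := by
      refine Summable.of_norm ?_
      refine (hU.sm t h0.le h1).congr fun n => ?_
      rw [Real.norm_eq_abs, abs_mul, abs_of_pos (pow_pos h0 n)]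
    have s2 : Summable fun n : ℕ => ((PowerSeries.coeff n U' : ℚ) : ℝ) * t ^ n := by
      refine Summable.of_norm ?_
      refine (hU'.sm t h0.le h1).congr fun n => ?_
      rw [Real.norm_eq_abs, abs_mul, abs_of_pos (pow_pos h0 n)]
    have e := (series_eq U hU h0 h1).trans (series_eq U' hU' h0 h1).symm
    have e2 := Complex.ofReal_injective e
    simp only [sub_mul]
    rw [s1.tsum_sub s2, e2, sub_self]

end Pool.Agent.ZPK.H33
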